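import Pool.Agent.H42.PolD

open Pool.Agent.H42.PolD

/-- The strong polarized relation at `d` holds exactly when `u < d`. -/
theorem Pool.Agent.Results.MP_2712b7_lc.Full.result : Pol dNum ↔ uNum < dNum := pol_iff
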